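import Mathlib

namespace Pool.Agent.Results.MP_9b45c5_lc.Const

open SimpleGraph

/-- A request: a directed path with at least one arc in the bidirected tree of `T`. -/
structure Req {V : Type} (T : SimpleGraph V) where
  s : V
  t : V
  p : T.Walk s t
  path : p.IsPath
  pos : ¬ p.Nil

/-- `r` interferes on `r'`: the path from the source of `r` to the target of `r'` has first arc
the emission arc of `r` and last arc the reception arc of `r'`. -/
def Interf {V : Type} {T : SimpleGraph V} (r r' : Req T) : Prop :=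
  ∃ q : T.Walk r.s r'.t, q.IsPath ∧ ¬ q.Nil ∧ q.snd = r.p.snd ∧
    q.penultimate = r'.p.penultimate

/-- The interference graph of the family of requests `R`. -/
def IG {V ι : Type} {T : SimpleGraph V} (R : ι → Req T) : SimpleGraph ι :=
  SimpleGraph.fromRel (fun i j => Interf (R i) (R j))

/-- A run of greedy MIS colouring with `k` colours: `S n` is the set of uncoloured vertices
before step `n`, and `I n` is the colour class chosen at step `n`. -/
structure Run {ι : Type} [Fintype ι] [DecidableEq ι] (G : SimpleGraph ι) (k : ℕ) where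
  S : ℕ → Finset ι
  I : ℕ → Finset ι
  start : S 0 = Finset.univ
  ne : ∀ n < k, (S n).Nonempty
  sub : ∀ n < k, I n ⊆ S n
  indep : ∀ n < k, G.IsIndepSet (I n : Set ι)
  max : ∀ n < k, ∀ J : Finset ι, J ⊆ S n → G.IsIndepSet (J : Set ι) → J.card ≤ (I n).card
  next : ∀ n < k, S (n + 1) = S n \ I n
  stop : S k = ∅

section tree
variable {V : Type} {T : SimpleGraph V}

def F (T : SimpleGraph V) (u v : V) : Set V := {y | ∃ w : T.Walk v y, u ∉ w.support}

theorem uniq (hT : T.IsTree) {u v : V} (p q : T.Walk u v) (hp : p.IsPath) (hq : q.IsPath) :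
    p = q := (hT.existsUnique_path u v).unique hp hq

theorem F_ext {u v a b : V} (ha : a ∈ F T u v) (w : T.Walk a b) (hw : u ∉ w.support) :
    b ∈ F T u v := by
  obtain ⟨w0, h0⟩ := ha
  exact ⟨w0.append w, by simp [Walk.mem_support_append_iff, h0, hw]⟩

theorem F_self {u v : V} (h : T.Adj u v) : v ∈ F T u v := ⟨Walk.nil, by simp [h.ne]⟩

theorem F_not {u v : V} : u ∉ F T u v := fun ⟨w, hw⟩ => hw w.end_mem_support

theorem F_disj (hT : T.IsTree) {u v y : V} (h : T.Adj u v) (h1 : y ∈ F T u v)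
    (h2 : y ∈ F T v u) : False := by
  classical
  obtain ⟨w1, h1⟩ := h1
  obtain ⟨w2, h2⟩ := h2
  have e := uniq hT (Walk.cons h w1.bypass) w2.bypass
    ((Walk.cons_isPath_iff _ _).2 ⟨w1.bypass_isPath,
      fun hh => h1 (w1.support_bypass_subset_support hh)⟩) w2.bypass_isPath
  apply h2
  apply w2.support_bypass_subset_support
  rw [← e]
  simp

theorem F_cover (hT : T.IsTree) {u v : V} (h : T.Adj u v) (y : V) :
    y ∈ F T u v ∨ y ∈ F T v u := by
  obtain ⟨w⟩ := hT.connected.preconnected y u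
  have key : ∀ (a b : V) (w : T.Walk a b), (b ∈ F T u v ∨ b ∈ F T v u) →
      (a ∈ F T u v ∨ a ∈ F T v u) := by
    intro a b w
    induction w with
    | nil => exact id
    | @cons a c b hac w ih =>
      intro hb
      by_cases h1 : a = u
      · exact Or.inr (by rw [h1]; exact F_self h.symm)
      by_cases h2 : a = v
      · exact Or.inl (by rw [h2]; exact F_self h)
      rcases ih hb with h3 | h3
      · refine Or.inl (F_ext h3 (Walk.cons hac.symm Walk.nil) ?_)
        have : u ≠ c := fun e => F_not (e ▸ h3)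
        simp [this, Ne.symm h1]
      · refine Or.inr (F_ext h3 (Walk.cons hac.symm Walk.nil) ?_)
        have : v ≠ c := fun e => F_not (e ▸ h3)
        simp [this, Ne.symm h2]
  exact key y u w (Or.inr (F_self h.symm))

theorem F_compl (hT : T.IsTree) {u v : V} (h : T.Adj u v) : (F T u v)ᶜ = F T v u := by
  ext y
  exact ⟨fun hy => (F_cover hT h y).resolve_left hy, fun hy h1 => F_disj hT h h1 hy⟩

theorem F_avoid {x y u b : V} (hu : u ∉ F T x y) (w : T.Walk y b) (hw : x ∉ w.support) :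
    u ∉ w.support := by
  classical
  intro h
  exact hu ⟨w.takeUntil u h, fun hh => hw (w.support_takeUntil_subset_support h hh)⟩

theorem F_sub {u v x y z : V} (hu : u ∉ F T x y) (h1 : z ∈ F T u v) (h2 : z ∈ F T x y) :
    F T x y ⊆ F T u v := by
  obtain ⟨w, hw⟩ := h2
  have hy : y ∈ F T u v := F_ext h1 w.reverse (by simpa using F_avoid hu w hw)
  rintro b ⟨w', hw'⟩
  exact F_ext hy w' (F_avoid hu w' hw')

theorem F_lam (hT : T.IsTree) {u v x y z ρ : V} (h : T.Adj u v) (h' : T.Adj x y)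
    (h1 : z ∈ F T u v) (h2 : z ∈ F T x y) (r1 : ρ ∉ F T u v) (r2 : ρ ∉ F T x y) :
    F T u v ⊆ F T x y ∨ F T x y ⊆ F T u v := by
  by_cases hu : u ∈ F T x y
  swap
  · exact Or.inr (F_sub hu h1 h2)
  by_cases hx : x ∈ F T u v
  swap
  · exact Or.inl (F_sub hx h2 h1)
  have r1' := (F_cover hT h ρ).resolve_left r1
  have r2' := (F_cover hT h' ρ).resolve_left r2
  by_cases hv : v ∈ F T y x
  swap
  · left
    have := F_sub hv r1' r2'
    rw [← F_compl hT h, ← F_compl hT h'] at this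
    exact Set.compl_subset_compl.1 this
  by_cases hy : y ∈ F T v u
  swap
  · right
    have := F_sub hy r2' r1'
    rw [← F_compl hT h, ← F_compl hT h'] at this
    exact Set.compl_subset_compl.1 this
  have e1 : x = v := by
    by_contra e
    have hne : x ≠ u := fun e => F_not (e ▸ hu)
    exact F_disj hT h' (F_ext hu (Walk.cons h Walk.nil) (by simp [e, hne])) hv
  have e2 : u = y := by
    by_contra e
    have hne : u ≠ x := fun e => F_not (e ▸ hx)
    exact F_disj hT h (F_ext hx (Walk.cons h' Walk.nil) (by simp [e, hne])) hy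
  subst e1 e2
  exact (F_disj hT h h1 h2).elim

theorem path_F {s t : V} (q : T.Walk s t) (hq : q.IsPath) (hn : ¬ q.Nil) : t ∈ F T s q.snd := by
  cases q with
  | nil => simp at hn
  | cons h w => exact ⟨w.copy (by simp) rfl, by simpa using ((Walk.cons_isPath_iff _ _).1 hq).2⟩

theorem F_path (hT : T.IsTree) {s t a : V} (h : T.Adj s a) (ht : t ∈ F T s a)
    (q : T.Walk s t) (hq : q.IsPath) : ¬ q.Nil ∧ q.snd = a := by
  classical
  obtain ⟨w, hw⟩ := ht
  have e := uniq hT (Walk.cons h w.bypass) q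
    ((Walk.cons_isPath_iff _ _).2 ⟨w.bypass_isPath,
      fun hh => hw (w.support_bypass_subset_support hh)⟩) hq
  rw [← e]
  simp

def AA (r : Req T) : Set V := F T r.s r.p.snd
def BB (r : Req T) : Set V := F T r.p.penultimate r.t

theorem interf_iff (hT : T.IsTree) (r r' : Req T) : Interf r r' ↔ BB r' ⊆ AA r := by
  have a1 : T.Adj r.s r.p.snd := r.p.adj_snd r.pos
  have a2 : T.Adj r'.p.penultimate r'.t := r'.p.adj_penultimate r'.pos
  constructor
  · rintro ⟨q, hq, hn, h1, h2⟩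
    have b1 := path_F q hq hn
    have b2 := path_F q.reverse hq.reverse (by simpa using hn)
    rw [Walk.snd_reverse, h2] at b2
    rw [h1] at b1
    exact F_sub (fun hh => F_disj hT a2 hh b2) b1 (F_self a2)
  · intro h
    obtain ⟨q, hq, -⟩ := hT.existsUnique_path r.s r'.t
    have b1 := F_path hT a1 (h (F_self a2)) q hq
    have b2 := F_path hT a2.symm
      ((F_cover hT a2 r.s).resolve_left (fun hh => F_not (h hh))) q.reverse hq.reverse
    exact ⟨q, hq, b1.1, b1.2, by simpa using b2.2⟩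

end tree

section greedy
variable {ι : Type} [Fintype ι] [DecidableEq ι] {G : SimpleGraph ι} {k : ℕ}

open Classical in
noncomputable def cnt (P : ℕ → Prop) (n : ℕ) : ℕ := ∑ i ∈ Finset.range n, if P i then 1 else 0

theorem cnt_pos {P : ℕ → Prop} {n : ℕ} (h : P n) : cnt P (n + 1) = cnt P n + 1 := by
  rw [cnt, Finset.sum_range_succ, if_pos h]; rfl

theorem cnt_neg {P : ℕ → Prop} {n : ℕ} (h : ¬ P n) : cnt P (n + 1) = cnt P n := by
  rw [cnt, Finset.sum_range_succ, if_neg h]; rfl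

theorem fwd (ρ : Run G k) (X : Finset ι) (P : ℕ → Prop) (hP : ∀ n < k, P n → (ρ.I n ∩ X).Nonempty)
    (m n : ℕ) (hmn : m ≤ n) (hn : n ≤ k) :
    cnt P n + (ρ.S n ∩ X).card ≤ cnt P m + (ρ.S m ∩ X).card := by
  induction n, hmn using Nat.le_induction with
  | base => exact le_rfl
  | succ n hmn ih =>
    have ih := ih (by omega)
    have hs : ρ.S (n + 1) ∩ X ⊆ ρ.S n ∩ X := by
      rw [ρ.next n (by omega)]
      exact Finset.inter_subset_inter_right Finset.sdiff_subset
    by_cases h : P n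
    · obtain ⟨a, ha⟩ := hP n (by omega) h
      rw [Finset.mem_inter] at ha
      have : (ρ.S (n + 1) ∩ X).card < (ρ.S n ∩ X).card := by
        refine Finset.card_lt_card ⟨hs, fun hh => ?_⟩
        have := hh (Finset.mem_inter.2 ⟨ρ.sub n (by omega) ha.1, ha.2⟩)
        rw [ρ.next n (by omega)] at this
        simp [ha.1] at this
      rw [cnt_pos h]; omega
    · have := Finset.card_le_card hs
      rw [cnt_neg h]; omega

theorem grow {V : Type} (ρ : Run G k) (X : Finset ι) (A : ι → Set V)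
    (lam : ∀ i ∈ X, ∀ j ∈ X, G.Adj i j → A i ⊆ A j ∨ A j ⊆ A i)
    (n : ℕ) (hn : n < k) (i j a : ι) (C : Finset ι) (hi : i ∈ ρ.S (n + 1) ∩ X)
    (hd : Disjoint (A i) (A j)) (hC : C ⊆ ρ.S (n + 1) ∩ X) (hCi : ∀ c ∈ C, A i ⊆ A c)
    (ha : a ∈ ρ.I n ∩ X) (hadj : G.Adj i a) :
    ∃ i' C', i' ∈ ρ.S n ∩ X ∧ Disjoint (A i') (A j) ∧ C' ⊆ ρ.S n ∩ X ∧ (∀ c ∈ C', A i' ⊆ A c) ∧
      Finset.card C' = C.card + 1 := by
  have hs : ρ.S (n + 1) ∩ X ⊆ ρ.S n ∩ X := by
    rw [ρ.next n hn]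
    exact Finset.inter_subset_inter_right Finset.sdiff_subset
  rw [Finset.mem_inter] at ha
  have haS : a ∈ ρ.S n ∩ X := Finset.mem_inter.2 ⟨ρ.sub n hn ha.1, ha.2⟩
  have haC : a ∉ C := fun h => by
    have := hC h
    rw [ρ.next n hn] at this
    simp [ha.1] at this
  have hsub : insert a C ⊆ ρ.S n ∩ X := Finset.insert_subset haS (hC.trans hs)
  rcases lam i (Finset.mem_inter.1 hi).2 a ha.2 hadj with h | h
  · refine ⟨i, insert a C, hs hi, hd, hsub, fun c hc => ?_, Finset.card_insert_of_notMem haC⟩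
    rcases Finset.mem_insert.1 hc with rfl | hc
    · exact h
    · exact hCi c hc
  · refine ⟨a, insert a C, haS, hd.mono_left h, hsub, fun c hc => ?_,
      Finset.card_insert_of_notMem haC⟩
    rcases Finset.mem_insert.1 hc with rfl | hc
    · exact le_rfl
    · exact h.trans (hCi c hc)

theorem side {V : Type} (ρ : Run G k) (c : ℕ) (hc : G.Colorable c) (X : Finset ι) (A : ι → Set V)
    (adj : ∀ i ∈ X, ∀ j ∈ X, i ≠ j → (G.Adj i j ↔ ¬ Disjoint (A i) (A j)))
    (lam : ∀ i ∈ X, ∀ j ∈ X, G.Adj i j → A i ⊆ A j ∨ A j ⊆ A i)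
    (ne : ∀ i ∈ X, (A i).Nonempty) (P : ℕ → Prop)
    (hP : ∀ n < k, P n → (ρ.I n ∩ X).Nonempty ∧ (ρ.I n).card ≤ (ρ.I n ∩ X).card + 1) :
    cnt P k ≤ 3 * c + 1 := by
  classical
  have clq : ∀ C : Finset ι, C ⊆ X → (∀ i ∈ C, ∀ j ∈ C, ¬ Disjoint (A i) (A j)) → C.card ≤ c :=
    fun C hC h => IsClique.card_le_of_colorable
      (fun i hi j hj hij => (adj i (hC hi) j (hC hj) hij).2 (h i hi j hj)) hc
  have back : ∀ m ≤ k, (∃ i ∈ ρ.S m ∩ X, ∃ j ∈ ρ.S m ∩ X, Disjoint (A i) (A j)) → ∀ d n, n + d = m →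
      ∃ i j C C', i ∈ ρ.S n ∩ X ∧ j ∈ ρ.S n ∩ X ∧ Disjoint (A i) (A j) ∧ C ⊆ ρ.S n ∩ X ∧
        C' ⊆ ρ.S n ∩ X ∧ (∀ c ∈ C, A i ⊆ A c) ∧ (∀ c ∈ C', A j ⊆ A c) ∧
        cnt P m ≤ cnt P n + Finset.card C + Finset.card C' := by
    rintro m hm ⟨i, hi, j, hj, hd⟩ d
    induction d with
    | zero =>
      rintro n rfl
      exact ⟨i, j, ∅, ∅, hi, hj, hd, by simp, by simp, by simp, by simp, by simp⟩
    | succ d ih =>
      intro n hn
      obtain ⟨i, j, C, C', hi, hj, hd, hC, hC', h1, h2, h3⟩ := ih (n + 1) (by omega)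
      have hnk : n < k := by omega
      have hs : ρ.S (n + 1) ∩ X ⊆ ρ.S n ∩ X := by
        rw [ρ.next n hnk]
        exact Finset.inter_subset_inter_right Finset.sdiff_subset
      by_cases h : P n
      swap
      · rw [cnt_neg h] at h3
        exact ⟨i, j, C, C', hs hi, hs hj, hd, hC.trans hs, hC'.trans hs, h1, h2, h3⟩
      rw [cnt_pos h] at h3
      by_cases e1 : ∃ a ∈ ρ.I n ∩ X, G.Adj i a
      · obtain ⟨a, ha, hadj⟩ := e1
        obtain ⟨i', D, g1, g2, g3, g4, g5⟩ := grow ρ X A lam n hnk i j a C hi hd hC h1 ha hadj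
        exact ⟨i', j, D, C', g1, hs hj, g2, g3, hC'.trans hs, g4, h2, by omega⟩
      by_cases e2 : ∃ a ∈ ρ.I n ∩ X, G.Adj j a
      · obtain ⟨a, ha, hadj⟩ := e2
        obtain ⟨j', D, g1, g2, g3, g4, g5⟩ :=
          grow ρ X A lam n hnk j i a C' hj hd.symm hC' h2 ha hadj
        exact ⟨i, j', C, D, hs hi, g1, g2.symm, hC.trans hs, g3, h1, g4, by omega⟩
      exfalso
      push Not at e1 e2
      have hiX := (Finset.mem_inter.1 hi).2
      have hjX := (Finset.mem_inter.1 hj).2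
      have hij : i ≠ j := by
        rintro rfl
        exact (ne i hiX).ne_empty (by simpa using hd)
      have hnadj : ¬ G.Adj i j := fun hh => (adj i hiX j hjX hij).1 hh hd
      have hiI : i ∉ ρ.I n := fun hh => by
        have := hi
        rw [ρ.next n hnk] at this
        simp [hh] at this
      have hjI : j ∉ ρ.I n := fun hh => by
        have := hj
        rw [ρ.next n hnk] at this
        simp [hh] at this
      have hmax := ρ.max n hnk (insert i (insert j (ρ.I n ∩ X)))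
        (Finset.insert_subset (Finset.mem_inter.1 (hs hi)).1
          (Finset.insert_subset (Finset.mem_inter.1 (hs hj)).1
            (Finset.inter_subset_left.trans (ρ.sub n hnk)))) (by
          intro a ha b hb hab hadj
          simp only [Finset.coe_insert, Set.mem_insert_iff, Finset.mem_coe] at ha hb
          rcases ha with rfl | rfl | ha <;> rcases hb with rfl | rfl | hb
          · exact hab rfl
          · exact hnadj hadj
          · exact e1 b hb hadj
          · exact hnadj hadj.symm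
          · exact hab rfl
          · exact e2 b hb hadj
          · exact e1 a ha hadj.symm
          · exact e2 a ha hadj.symm
          · exact ρ.indep n hnk (Finset.mem_inter.1 ha).1 (Finset.mem_inter.1 hb).1 hab hadj)
      rw [Finset.card_insert_of_notMem (by simp [hij, hiI]),
        Finset.card_insert_of_notMem (by simp [hjI])] at hmax
      have := (hP n hnk h).2
      omega
  have ex : ∃ m, m ≤ k ∧ ¬ ∃ i ∈ ρ.S m ∩ X, ∃ j ∈ ρ.S m ∩ X, Disjoint (A i) (A j) :=
    ⟨k, le_rfl, by simp [ρ.stop]⟩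
  obtain ⟨hm1, hm2⟩ := Nat.find_spec ex
  have f1 := fwd ρ X P (fun n hn h => (hP n hn h).1) (Nat.find ex) k hm1 le_rfl
  have f2 : (ρ.S (Nat.find ex) ∩ X).card ≤ c :=
    clq _ Finset.inter_subset_right (fun i hi j hj hd => hm2 ⟨i, hi, j, hj, hd⟩)
  have f3 : cnt P (Nat.find ex) ≤ 2 * c + 1 := by
    rcases e : Nat.find ex with _ | m
    · simp [cnt]
    · have hmin := Nat.find_min ex (show m < Nat.find ex by omega)
      have hmk : m ≤ k := by omega
      obtain ⟨i, j, C, C', hi, hj, -, hC, hC', h1, h2, h3⟩ :=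
        back m hmk (by by_contra hh; exact hmin ⟨hmk, hh⟩) m 0 (by simp)
      have g1 : C.card ≤ c := clq C (hC.trans Finset.inter_subset_right) (fun a ha b hb hd => by
        obtain ⟨z, hz⟩ := ne i (Finset.mem_inter.1 hi).2
        exact Set.disjoint_left.1 hd (h1 a ha hz) (h1 b hb hz))
      have g2 : C'.card ≤ c := clq C' (hC'.trans Finset.inter_subset_right) (fun a ha b hb hd => by
        obtain ⟨z, hz⟩ := ne j (Finset.mem_inter.1 hj).2
        exact Set.disjoint_left.1 hd (h2 a ha hz) (h2 b hb hz))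
      have g3 : cnt P 0 = 0 := by simp [cnt]
      by_cases h : P m
      · rw [cnt_pos h]; omega
      · rw [cnt_neg h]; omega
  omega

theorem main {V : Type} (ρ : Run G k) (c : ℕ) (hc : G.Colorable c) (r : V) (Fam : Set V → Prop)
    (lam : ∀ X Y, Fam X → Fam Y → r ∉ X → r ∉ Y → ¬ Disjoint X Y → X ⊆ Y ∨ Y ⊆ X)
    (A B : ι → Set V) (fA : ∀ i, Fam (A i)) (fB : ∀ i, Fam (B i))
    (fA' : ∀ i, Fam (A i)ᶜ) (fB' : ∀ i, Fam (B i)ᶜ) (hBA : ∀ i, B i ⊆ A i)
    (neB : ∀ i, (B i).Nonempty) (neA : ∀ i, (A i)ᶜ.Nonempty)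
    (adj : ∀ i j, G.Adj i j ↔ i ≠ j ∧ (B j ⊆ A i ∨ B i ⊆ A j)) : k ≤ 8 * c + 2 := by
  classical
  set D : Finset ι := Finset.univ.filter (fun i => r ∉ A i) with hD
  set U : Finset ι := Finset.univ.filter (fun i => r ∈ B i) with hU
  set W : Finset ι := Finset.univ.filter (fun i => r ∈ A i ∧ r ∉ B i) with hW
  have mD : ∀ i, i ∈ D ↔ r ∉ A i := by simp [hD]
  have mU : ∀ i, i ∈ U ↔ r ∈ B i := by simp [hU]
  have mW : ∀ i, i ∈ W ↔ r ∈ A i ∧ r ∉ B i := by simp [hW]
  have adjD : ∀ i ∈ D, ∀ j ∈ D, i ≠ j → (G.Adj i j ↔ ¬ Disjoint (A i) (A j)) := by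
    intro i hi j hj hij
    rw [adj]
    constructor
    · rintro ⟨-, h | h⟩ hd
      · obtain ⟨z, hz⟩ := neB j
        exact Set.disjoint_left.1 hd (h hz) (hBA j hz)
      · obtain ⟨z, hz⟩ := neB i
        exact Set.disjoint_left.1 hd (hBA i hz) (h hz)
    · intro h
      rcases lam _ _ (fA i) (fA j) ((mD i).1 hi) ((mD j).1 hj) h with h | h
      · exact ⟨hij, Or.inr ((hBA i).trans h)⟩
      · exact ⟨hij, Or.inl ((hBA j).trans h)⟩
  have adjU : ∀ i ∈ U, ∀ j ∈ U, i ≠ j → (G.Adj i j ↔ ¬ Disjoint (B i)ᶜ (B j)ᶜ) := by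
    intro i hi j hj hij
    rw [adj]
    constructor
    · rintro ⟨-, h | h⟩ hd
      · obtain ⟨z, hz⟩ := neA i
        exact Set.disjoint_left.1 hd (fun e => hz (hBA i e)) (fun e => hz (h e))
      · obtain ⟨z, hz⟩ := neA j
        exact Set.disjoint_left.1 hd (fun e => hz (h e)) (fun e => hz (hBA j e))
    · intro h
      rcases lam _ _ (fB' i) (fB' j) (fun e => e ((mU i).1 hi)) (fun e => e ((mU j).1 hj)) h
        with h | h
      · exact ⟨hij, Or.inl ((Set.compl_subset_compl.1 h).trans (hBA i))⟩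
      · exact ⟨hij, Or.inr ((Set.compl_subset_compl.1 h).trans (hBA j))⟩
  have sD := side ρ c hc D A adjD
    (fun i hi j hj h => lam _ _ (fA i) (fA j) ((mD i).1 hi) ((mD j).1 hj)
      ((adjD i hi j hj h.ne).1 h))
    (fun i _ => (neB i).mono (hBA i))
    (fun n => (ρ.I n ∩ D).Nonempty ∧ (ρ.I n).card ≤ (ρ.I n ∩ D).card + 1) (fun n _ h => h)
  have sU := side ρ c hc U (fun i => (B i)ᶜ) adjU
    (fun i hi j hj h => lam _ _ (fB' i) (fB' j) (fun e => e ((mU i).1 hi))
      (fun e => e ((mU j).1 hj)) ((adjU i hi j hj h.ne).1 h))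
    (fun i _ => (neA i).mono (Set.compl_subset_compl.2 (hBA i)))
    (fun n => (ρ.I n ∩ U).Nonempty ∧ (ρ.I n).card ≤ (ρ.I n ∩ U).card + 1) (fun n _ h => h)
  have nadj : ∀ i j, i ≠ j → ¬ G.Adj i j → ∃ z, z ∈ B j ∧ z ∉ A i := by
    intro i j hij h
    by_contra hh
    push Not at hh
    exact h ((adj i j).2 ⟨hij, Or.inl hh⟩)
  have cW : W.card ≤ 2 * c := by
    obtain ⟨f⟩ := hc
    refine (Finset.card_le_mul_card_image (f := f) W 2 (fun a _ => ?_)).trans
      (Nat.mul_le_mul_left 2 ((Finset.card_le_univ _).trans (by simp)))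
    by_contra hh
    obtain ⟨x, y, z, hx, hy, hz, hxy, hxz, hyz⟩ := Finset.two_lt_card_iff.1 (not_le.1 hh)
    simp only [Finset.mem_filter] at hx hy hz
    have n1 : ∀ i j, f i = a → f j = a → ¬ G.Adj i j :=
      fun i j h1 h2 h => f.valid h (h1.trans h2.symm)
    have wx := (mW x).1 hx.1
    have wy := (mW y).1 hy.1
    have wz := (mW z).1 hz.1
    obtain ⟨p1, a1, b1⟩ := nadj x y hxy (n1 _ _ hx.2 hy.2)
    obtain ⟨p2, a2, b2⟩ := nadj x z hxz (n1 _ _ hx.2 hz.2)
    obtain ⟨p3, a3, b3⟩ := nadj z y hyz.symm (n1 _ _ hz.2 hy.2)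
    obtain ⟨p4, a4, b4⟩ := nadj y z hyz (n1 _ _ hy.2 hz.2)
    obtain ⟨p5, a5, b5⟩ := nadj z x hxz.symm (n1 _ _ hz.2 hx.2)
    rcases lam _ _ (fA' x) (fB y) (fun e => e wx.1) wy.2
      (fun hd => Set.disjoint_left.1 hd b1 a1) with h | h
    · rcases lam _ _ (fB y) (fB z) wy.2 wz.2
        (fun hd => Set.disjoint_left.1 hd (h b2) a2) with h' | h'
      · exact b3 (hBA z (h' a3))
      · exact b4 (hBA y (h' a4))
    · rcases lam _ _ (fA' x) (fA' z) (fun e => e wx.1) (fun e => e wz.1)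
        (fun hd => Set.disjoint_left.1 hd (h a3) b3) with h' | h'
      · exact h' b2 (hBA z a2)
      · exact h' b5 (hBA x a5)
  have sW := fwd ρ W (fun n => (ρ.I n ∩ W).Nonempty) (fun n _ h => h) 0 k (by omega) le_rfl
  have tri : ∀ n < k, (ρ.I n ∩ W).Nonempty ∨
      ((ρ.I n ∩ D).Nonempty ∧ (ρ.I n).card ≤ (ρ.I n ∩ D).card + 1) ∨
      ((ρ.I n ∩ U).Nonempty ∧ (ρ.I n).card ≤ (ρ.I n ∩ U).card + 1) := by
    intro n hn
    by_cases h0 : (ρ.I n ∩ W).Nonempty
    · exact Or.inl h0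
    right
    obtain ⟨a, ha⟩ := ρ.ne n hn
    have h1 := ρ.max n hn {a} (by simpa using ha) (by simp)
    rw [Finset.card_singleton] at h1
    have h2 : (ρ.I n).card ≤ (ρ.I n ∩ D).card + (ρ.I n ∩ U).card := by
      refine le_trans (Finset.card_le_card fun i hi => ?_) (Finset.card_union_le _ _)
      have : i ∉ W := fun e => h0 ⟨i, Finset.mem_inter.2 ⟨hi, e⟩⟩
      simp only [Finset.mem_union, Finset.mem_inter, mD, mU, mW] at this ⊢
      tauto
    have h3 : (ρ.I n ∩ D).card ≤ 1 ∨ (ρ.I n ∩ U).card ≤ 1 := by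
      by_contra hh
      push Not at hh
      obtain ⟨d1, hd1, d2, hd2, hd⟩ := Finset.one_lt_card.1 hh.1
      obtain ⟨u1, hu1, u2, hu2, hu⟩ := Finset.one_lt_card.1 hh.2
      rw [Finset.mem_inter] at hd1 hd2 hu1 hu2
      have hne : ∀ u ∈ U, ∀ d ∈ D, u ≠ d := by
        rintro u hu d hd rfl
        exact (mD u).1 hd (hBA u ((mU u).1 hu))
      have dd : Disjoint (A d1) (A d2) := by
        by_contra e
        exact ρ.indep n hn hd1.1 hd2.1 hd ((adjD _ hd1.2 _ hd2.2 hd).2 e)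
      have uu : Disjoint (B u1)ᶜ (B u2)ᶜ := by
        by_contra e
        exact ρ.indep n hn hu1.1 hu2.1 hu ((adjU _ hu1.2 _ hu2.2 hu).2 e)
      obtain ⟨p1, a1, b1⟩ := nadj u1 d1 (hne _ hu1.2 _ hd1.2)
        (ρ.indep n hn hu1.1 hd1.1 (hne _ hu1.2 _ hd1.2))
      obtain ⟨p2, a2, b2⟩ := nadj u2 d1 (hne _ hu2.2 _ hd1.2)
        (ρ.indep n hn hu2.1 hd1.1 (hne _ hu2.2 _ hd1.2))
      obtain ⟨p3, a3, b3⟩ := nadj u1 d2 (hne _ hu1.2 _ hd2.2)
        (ρ.indep n hn hu1.1 hd2.1 (hne _ hu1.2 _ hd2.2))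
      rcases lam _ _ (fB d1) (fA' u1) (fun e => (mD d1).1 hd1.2 (hBA d1 e))
        (fun e => e (hBA u1 ((mU u1).1 hu1.2))) (fun hd => Set.disjoint_left.1 hd a1 b1) with h | h
      · exact Set.disjoint_left.1 uu (fun e => h a2 (hBA u1 e)) (fun e => b2 (hBA u2 e))
      · exact Set.disjoint_left.1 dd (hBA d1 (h b3)) (hBA d2 a3)
    rw [← Finset.card_pos, ← Finset.card_pos]
    omega
  have tot : ∀ n ≤ k, n ≤ cnt (fun n => (ρ.I n ∩ W).Nonempty) n +
      cnt (fun n => (ρ.I n ∩ D).Nonempty ∧ (ρ.I n).card ≤ (ρ.I n ∩ D).card + 1) n +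
      cnt (fun n => (ρ.I n ∩ U).Nonempty ∧ (ρ.I n).card ≤ (ρ.I n ∩ U).card + 1) n := by
    intro n hn
    induction n with
    | zero => omega
    | succ n ih =>
      have ih := ih (by omega)
      have mono : ∀ P : ℕ → Prop, cnt P n ≤ cnt P (n + 1) := by
        intro P
        by_cases h : P n
        · rw [cnt_pos h]; omega
        · rw [cnt_neg h]
      have m1 := mono (fun n => (ρ.I n ∩ W).Nonempty)
      have m2 := mono (fun n => (ρ.I n ∩ D).Nonempty ∧ (ρ.I n).card ≤ (ρ.I n ∩ D).card + 1)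
      have m3 := mono (fun n => (ρ.I n ∩ U).Nonempty ∧ (ρ.I n).card ≤ (ρ.I n ∩ U).card + 1)
      rcases tri n (by omega) with h | h | h
      · have := cnt_pos (P := fun n => (ρ.I n ∩ W).Nonempty) h
        omega
      · have := cnt_pos
          (P := fun n => (ρ.I n ∩ D).Nonempty ∧ (ρ.I n).card ≤ (ρ.I n ∩ D).card + 1) h
        omega
      · have := cnt_pos
          (P := fun n => (ρ.I n ∩ U).Nonempty ∧ (ρ.I n).card ≤ (ρ.I n ∩ U).card + 1) h
        omega
  have t := tot k le_rfl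
  have z0 : cnt (fun n => (ρ.I n ∩ W).Nonempty) 0 = 0 := by simp [cnt]
  have z1 : (ρ.S 0 ∩ W).card ≤ W.card := Finset.card_le_card Finset.inter_subset_right
  omega

end greedy

theorem result {V ι : Type} [Fintype V] [Fintype ι] [DecidableEq ι] (T : SimpleGraph V)
    (hT : T.IsTree) (R : ι → Req T) (k : ℕ) (ρ : Run (IG R) k) :
    (k : ℕ∞) ≤ 10 * (IG R).chromaticNumber := by
  have hc := (IG R).colorable_chromaticNumber_of_fintype
  obtain ⟨r⟩ := hT.connected.nonempty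
  have a1 : ∀ i, T.Adj (R i).s (R i).p.snd := fun i => (R i).p.adj_snd (R i).pos
  have a2 : ∀ i, T.Adj (R i).p.penultimate (R i).t := fun i => (R i).p.adj_penultimate (R i).pos
  have h := main ρ _ hc r (fun X => ∃ u v, T.Adj u v ∧ X = F T u v)
    (by
      rintro X Y ⟨u, v, h, rfl⟩ ⟨x, y, h', rfl⟩ r1 r2 hd
      obtain ⟨z, h1, h2⟩ := Set.not_disjoint_iff.1 hd
      exact F_lam hT h h' h1 h2 r1 r2)
    (fun i => AA (R i)) (fun i => BB (R i)) (fun i => ⟨_, _, a1 i, rfl⟩)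
    (fun i => ⟨_, _, a2 i, rfl⟩) (fun i => ⟨_, _, (a1 i).symm, F_compl hT (a1 i)⟩)
    (fun i => ⟨_, _, (a2 i).symm, F_compl hT (a2 i)⟩)
    (fun i => (interf_iff hT _ _).1 ⟨(R i).p, (R i).path, (R i).pos, rfl, rfl⟩)
    (fun i => ⟨_, F_self (a2 i)⟩) (fun i => ⟨(R i).s, F_not⟩)
    (fun i j => by rw [IG, SimpleGraph.fromRel_adj, interf_iff hT, interf_iff hT])
  have h2 : k ≤ 10 * (IG R).chromaticNumber.toNat := by
    rcases Nat.eq_zero_or_pos k with rfl | hk
    · omega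
    · obtain ⟨a, -⟩ := ρ.ne 0 hk
      obtain ⟨f⟩ := hc
      have := (f a).pos
      omega
  calc (k : ℕ∞) ≤ ((10 * (IG R).chromaticNumber.toNat : ℕ) : ℕ∞) := by exact_mod_cast h2
    _ = 10 * (((IG R).chromaticNumber.toNat : ℕ) : ℕ∞) := by push_cast; rfl
    _ ≤ 10 * (IG R).chromaticNumber := by
      gcongr
      exact ENat.natCast_toNat_le_self _

end Pool.Agent.Results.MP_9b45c5_lc.Const
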